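import Pool.Agent.K1H53.BI.Plan

/-! Project BI, piece AC: anti-concentration from second and fourth moments. -/

set_option autoImplicit false

open scoped ENNReal

namespace Pool.Agent.K1H28.BI

open Pool.Agent.K1H53.BI

theorem core {α : Type} (q w : α → ℝ) (hq : ∀ a, 0 ≤ q a) (h0 : HasSum q 1)
    (h1 : HasSum (fun a => q a * w a) 0) {m2 m4 s2 B P : ℝ}
    (h2 : HasSum (fun a => q a * w a ^ 2) m2) (h4 : HasSum (fun a => q a * w a ^ 4) m4)
    (hs2 : 0 < s2) (hB : 0 < B) (hm2 : s2 ≤ m2) (hm4 : m4 ≤ B)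
    (hP : HasSum (fun a => q a * (if s2 * Real.sqrt (s2 / B) / 4 ≤ w a then 1 else 0)) P) :
    s2 ^ 2 / (16 * B) ≤ P := by
  have hm2p : 0 < m2 := lt_of_lt_of_le hs2 hm2
  -- the first absolute moment
  have hE : Summable fun a => q a * |w a| := by
    refine Summable.of_nonneg_of_le (fun a => mul_nonneg (hq a) (abs_nonneg _)) (fun a => ?_)
      (h0.summable.add h2.summable)
    have h5 : |w a| ≤ 1 + w a ^ 2 := by
      rw [← sq_abs]
      nlinarith [sq_nonneg (|w a| - 1), abs_nonneg (w a)]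
    calc q a * |w a| ≤ q a * (1 + w a ^ 2) := mul_le_mul_of_nonneg_left h5 (hq a)
      _ = q a + q a * w a ^ 2 := by ring
  obtain ⟨E1, hE1⟩ := hE
  set r := Real.sqrt (m2 / B) with hr
  have hrpos : 0 < r := Real.sqrt_pos.2 (div_pos hm2p hB)
  have hr2 : r ^ 2 * B = m2 := by
    rw [hr, Real.sq_sqrt (div_pos hm2p hB).le]
    field_simp
  set c := s2 * Real.sqrt (s2 / B) / 4 with hc
  have hcpos : 0 ≤ c := by positivity
  have hcle : c ≤ m2 * r / 4 := by
    have h5 : Real.sqrt (s2 / B) ≤ r :=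
      Real.sqrt_le_sqrt (div_le_div_of_nonneg_right hm2 hB.le)
    have h6 : s2 * Real.sqrt (s2 / B) ≤ m2 * r :=
      mul_le_mul hm2 h5 (Real.sqrt_nonneg _) hm2p.le
    rw [hc]
    linarith
  -- lower bound for the first absolute moment
  have hlow : m2 * r ≤ E1 := by
    have h5 : HasSum (fun a => 3 * r * (q a * w a ^ 2)) (3 * r * m2) := h2.mul_left _
    have h6 : HasSum (fun a => 2 * (q a * |w a|) + r ^ 3 * (q a * w a ^ 4))
        (2 * E1 + r ^ 3 * m4) := (hE1.mul_left _).add (h4.mul_left _)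
    have h7 : 3 * r * m2 ≤ 2 * E1 + r ^ 3 * m4 := by
      refine hasSum_le (fun a => ?_) h5 h6
      have h8 : 3 * r * w a ^ 2 ≤ 2 * |w a| + r ^ 3 * w a ^ 4 := by
        have h9 : w a ^ 2 = |w a| ^ 2 := (sq_abs _).symm
        have h10 : w a ^ 4 = |w a| ^ 4 := by
          rw [show (4 : ℕ) = 2 * 2 by norm_num, pow_mul, pow_mul, sq_abs]
        rw [h9, h10]
        have h11 : 0 ≤ |w a| * ((r * |w a| - 1) ^ 2 * (r * |w a| + 2)) := by positivity
        nlinarith [h11]
      calc 3 * r * (q a * w a ^ 2) = q a * (3 * r * w a ^ 2) := by ring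
        _ ≤ q a * (2 * |w a| + r ^ 3 * w a ^ 4) := mul_le_mul_of_nonneg_left h8 (hq a)
        _ = 2 * (q a * |w a|) + r ^ 3 * (q a * w a ^ 4) := by ring
    have h12 : r ^ 3 * m4 ≤ r * m2 := by
      calc r ^ 3 * m4 ≤ r ^ 3 * B := mul_le_mul_of_nonneg_left hm4 (by positivity)
        _ = r * (r ^ 2 * B) := by ring
        _ = r * m2 := by rw [hr2]
    linarith
  -- upper bound
  have hup : E1 ≤ 2 * c + m2 * (r / 4) + 4 / r * P := by
    have h6 : HasSum (fun a => 2 * c * q a + (r / 4) * (q a * w a ^ 2) +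
        (4 / r) * (q a * (if c ≤ w a then 1 else 0)) + (-1) * (q a * w a))
        (2 * c * 1 + (r / 4) * m2 + (4 / r) * P + (-1) * 0) :=
      (((h0.mul_left _).add (h2.mul_left _)).add (hP.mul_left _)).add (h1.mul_left _)
    have h7 := hasSum_le (fun a => ?_) hE1 h6
    · linarith
    · have h8 : |w a| ≤ 2 * c + (r / 4) * w a ^ 2 + (4 / r) * (if c ≤ w a then 1 else 0) +
          (-1) * w a := by
        have h9 : 0 ≤ (r / 4) * w a ^ 2 := by positivity
        split_ifs with h10
        · have h11 : |w a| = w a := abs_of_nonneg (hcpos.trans h10)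
          rw [h11]
          have h12 : 0 ≤ (r / 4) * (w a - 4 / r) ^ 2 := by positivity
          have h13 : (r / 4) * (w a - 4 / r) ^ 2 = (r / 4) * w a ^ 2 - 2 * w a + 4 / r := by
            field_simp
            ring
          rw [h13] at h12
          linarith
        · rw [not_le] at h10
          rcases le_total 0 (w a) with h11 | h11
          · rw [abs_of_nonneg h11]
            linarith
          · rw [abs_of_nonpos h11]
            linarith
      calc q a * |w a| ≤ q a * (2 * c + (r / 4) * w a ^ 2 +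
            (4 / r) * (if c ≤ w a then 1 else 0) + (-1) * w a) :=
          mul_le_mul_of_nonneg_left h8 (hq a)
        _ = _ := by ring
  have h13 : m2 * r / 4 ≤ 4 / r * P := by linarith
  have h14 : m2 * r ^ 2 / 16 ≤ P := by
    have h15 : (m2 * r / 4) * (r / 4) ≤ (4 / r * P) * (r / 4) :=
      mul_le_mul_of_nonneg_right h13 (by positivity)
    have h16 : (4 / r * P) * (r / 4) = P := by
      field_simp
    rw [h16] at h15
    calc m2 * r ^ 2 / 16 = (m2 * r / 4) * (r / 4) := by ring
      _ ≤ P := h15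
  refine le_trans ?_ h14
  have h17 : r ^ 2 = m2 / B := by
    rw [← hr2]
    field_simp
  rw [h17, div_le_iff₀ (by positivity)]
  have h18 : m2 * (m2 / B) / 16 * (16 * B) = m2 ^ 2 := by
    field_simp
  rw [h18]
  exact pow_le_pow_left₀ hs2.le hm2 2

theorem conv {α : Type} (p : PMF α) (g : α → ℝ) (hg : ∀ a, 0 ≤ g a)
    (hfin : Ex p (fun a => ENNReal.ofReal (g a)) ≠ ∞) :
    HasSum (fun a => (p a).toReal * g a) (Ex p (fun a => ENNReal.ofReal (g a))).toReal := by
  have h1 := ENNReal.hasSum_toReal hfin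
  rw [← ENNReal.tsum_toReal_eq
    (fun a => ENNReal.mul_ne_top (p.apply_ne_top a) ENNReal.ofReal_ne_top)] at h1
  have h2 : (fun a => (p a).toReal * g a) = fun a => (p a * ENNReal.ofReal (g a)).toReal := by
    funext a
    rw [ENNReal.toReal_mul, ENNReal.toReal_ofReal (hg a)]
  rw [h2]
  exact h1

theorem hasSum_one {α : Type} (p : PMF α) : HasSum (fun a => (p a).toReal) 1 := by
  have h1 : Ex p (fun _ => ENNReal.ofReal 1) = 1 := by
    rw [ENNReal.ofReal_one, Ex_const]
  have h2 := conv p (fun _ => 1) (fun _ => zero_le_one) (by rw [h1]; exact ENNReal.one_ne_top)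
  rw [h1] at h2
  simpa using h2

/-- one side -/
theorem side {α : Type} (p : PMF α) (w : α → ℝ) {s2 B : ℝ} (hs2 : 0 < s2) (hB : 0 < B)
    (h1 : HasSum (fun a => (p a).toReal * w a) 0)
    (h2 : ENNReal.ofReal s2 ≤ Ex p (fun a => ENNReal.ofReal (w a ^ 2)))
    (h4 : Ex p (fun a => ENNReal.ofReal (w a ^ 4)) ≤ ENNReal.ofReal B) :
    ENNReal.ofReal (s2 ^ 2 / (16 * B)) ≤
      Ex p (ind fun a => s2 * Real.sqrt (s2 / B) / 4 ≤ w a) := by
  classical
  have h4f : Ex p (fun a => ENNReal.ofReal (w a ^ 4)) ≠ ∞ :=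
    ne_top_of_le_ne_top ENNReal.ofReal_ne_top h4
  have h2f : Ex p (fun a => ENNReal.ofReal (w a ^ 2)) ≠ ∞ := by
    have h5 : Ex p (fun a => ENNReal.ofReal (w a ^ 2)) ≤
        Ex p (fun a => 1 + ENNReal.ofReal (w a ^ 4)) := by
      refine Ex_mono p fun a _ => ?_
      rw [← ENNReal.ofReal_one, ← ENNReal.ofReal_add zero_le_one (by positivity)]
      refine ENNReal.ofReal_le_ofReal ?_
      nlinarith [sq_nonneg (w a ^ 2 - 1), sq_nonneg (w a ^ 2), sq_nonneg (w a)]
    refine ne_top_of_le_ne_top ?_ h5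
    rw [Ex_add p (fun _ => 1) (fun a => ENNReal.ofReal (w a ^ 4)), Ex_const]
    exact ENNReal.add_ne_top.2 ⟨ENNReal.one_ne_top, h4f⟩
  have hP : Ex p (ind fun a => s2 * Real.sqrt (s2 / B) / 4 ≤ w a) =
      Ex p (fun a => ENNReal.ofReal (if s2 * Real.sqrt (s2 / B) / 4 ≤ w a then 1 else 0)) := by
    refine Ex_congr p fun a _ => ?_
    unfold ind
    split_ifs <;> simp
  have hPf : Ex p (fun a => ENNReal.ofReal
      (if s2 * Real.sqrt (s2 / B) / 4 ≤ w a then 1 else 0)) ≠ ∞ := by
    have h5 : Ex p (fun a => ENNReal.ofReal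
      (if s2 * Real.sqrt (s2 / B) / 4 ≤ w a then 1 else 0)) ≤ Ex p (fun _ => 1) := by
      refine Ex_mono p fun a _ => ?_
      split_ifs <;> simp
    refine ne_top_of_le_ne_top ?_ h5
    rw [Ex_const]
    exact ENNReal.one_ne_top
  have H2 := conv p (fun a => w a ^ 2) (fun a => by positivity) h2f
  have H4 := conv p (fun a => w a ^ 4) (fun a => by positivity) h4f
  have HP := conv p (fun a => if s2 * Real.sqrt (s2 / B) / 4 ≤ w a then 1 else 0)
    (fun a => by split_ifs <;> norm_num) hPf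
  have h6 := core (fun a => (p a).toReal) w (fun a => ENNReal.toReal_nonneg) (hasSum_one p) h1
    H2 H4 hs2 hB ((ENNReal.ofReal_le_iff_le_toReal h2f).1 h2)
    (ENNReal.toReal_le_of_le_ofReal hB.le h4) HP
  rw [hP]
  exact (ENNReal.ofReal_le_iff_le_toReal hPf).2 h6

/-- **Piece AC.** -/
theorem t_AC : S_AC := by
  intro α p y T s2 B hs2 hB hy h2 h4
  have hyf : Ex p (fun a => ENNReal.ofReal ((y a : ℝ))) = T := by
    rw [← hy]
    refine Ex_congr p fun a _ => ?_
    exact ENNReal.ofReal_natCast _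
  have h1 := conv p (fun a => (y a : ℝ)) (fun a => Nat.cast_nonneg _)
    (by rw [hyf]; exact ENNReal.natCast_ne_top T)
  rw [hyf, ENNReal.toReal_natCast] at h1
  have h5 : HasSum (fun a => (p a).toReal * ((y a : ℝ) - T)) 0 := by
    have h6 := h1.sub ((hasSum_one p).mul_right (T : ℝ))
    rw [one_mul, sub_self] at h6
    have h7 : (fun a => (p a).toReal * ((y a : ℝ) - T)) =
        fun a => (p a).toReal * (y a : ℝ) - (p a).toReal * (T : ℝ) := by
      funext a; ring
    rw [h7]
    exact h6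
  refine ⟨?_, ?_⟩
  · refine (side p (fun a => (y a : ℝ) - T) hs2 hB h5 h2 h4).trans (Ex_mono p fun a _ => ?_)
    unfold ind
    split_ifs with h7 h8 h8
    · exact le_rfl
    · exact absurd (by linarith) h8
    · exact zero_le
    · exact le_rfl
  · have h6 : HasSum (fun a => (p a).toReal * (-((y a : ℝ) - T))) 0 := by
      have h7 := h5.neg
      rw [neg_zero] at h7
      have h8 : (fun a => (p a).toReal * (-((y a : ℝ) - T))) =
          fun a => -((p a).toReal * ((y a : ℝ) - T)) := by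
        funext a; ring
      rw [h8]
      exact h7
    refine (side p (fun a => -((y a : ℝ) - T)) hs2 hB h6 ?_ ?_).trans (Ex_mono p fun a _ => ?_)
    · simpa only [neg_sq] using h2
    · have h7 : ∀ x : ℝ, (-x) ^ 4 = x ^ 4 := fun x => by ring
      simpa only [h7] using h4
    · unfold ind
      split_ifs with h7 h8 h8
      · exact le_rfl
      · exact absurd (by linarith) h8
      · exact zero_le
      · exact le_rfl

end Pool.Agent.K1H28.BI
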