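import Pool.Agent.K1H53.BI.Plan2
import Pool.Agent.K1H39.BI.Gen
import Pool.Agent.K1H10.BI.GZ

/-! Project BI, second part: pieces GENF and GZF (one event of the frozen dynamics). -/

set_option autoImplicit false

open scoped ENNReal
open Finset

namespace Pool.Agent.K1H28.BI

open Pool.Agent.K1H53.BI Pool.Agent.K1H39.BI

theorem sel_mem {R : ℕ} {s : St} (h : Act R s) : sel R s ∈ s.L ∧ nsq (sel R s) ≤ R ^ 2 := by
  unfold sel
  rw [dif_pos h]
  exact h.choose_spec

theorem sum_erase (g : V → ℕ) {l : List V} {x : V} (hx : x ∈ l) :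
    (l.map g).sum = g x + ((l.erase x).map g).sum := by
  have h1 := ((List.perm_cons_erase hx).map g).sum_eq
  rw [List.map_cons, List.sum_cons] at h1
  exact h1

theorem stepF_act (ν : PMF ℕ) (R : ℕ) (s : St) (h : Act R s) :
    stepF ν R s = ν.bind fun k => children (sel R s) k ⟨s.A, s.L.erase (sel R s), s.m⟩ := by
  unfold stepF top
  rw [if_pos h]

theorem stepF_not (ν : PMF ℕ) (R : ℕ) (s : St) (h : ¬ Act R s) :
    stepF ν R s = PMF.pure (if s.m = 0 then s else lau s) := by
  unfold stepF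
  rw [if_neg h]
  split_ifs <;> rfl

theorem yy_er (s : St) {x : V} (hx : x ∈ s.L) : yy ⟨s.A, s.L.erase x, s.m⟩ = yy s - 1 := by
  have h1 := List.length_erase_of_mem hx
  have h2 := List.length_pos_of_mem hx
  unfold yy
  simp only [h1]
  omega

theorem VV_er (R : ℕ) (s : St) {x : V} (hx : x ∈ s.L) :
    VV R s = ((R + 1) ^ 2 - nsq x) + VV R ⟨s.A, s.L.erase x, s.m⟩ := by
  unfold VV
  rw [sum_erase (fun x => (R + 1) ^ 2 - nsq x) hx]
  simp only
  omega

theorem ZZ_er (s : St) {x : V} (hx : x ∈ s.L) :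
    ZZ ⟨s.A, s.L.erase x, s.m⟩ + nsq x = ZZ s := by
  unfold ZZ
  have := sum_erase nsq hx
  simp only
  omega

theorem ZZ_lau (s : St) : ZZ (lau s) = ZZ s := by
  unfold ZZ lau
  simp only [List.map_cons, List.sum_cons, Pool.Agent.K1H39.BI.nsq_zero, zero_add]

/-- **GENF.** -/
theorem t_GENF : S_GENF := by
  intro ν R s
  refine ⟨?_, ?_⟩
  · intro h
    refine ⟨_, stepF_not ν R s h, ?_, ?_, ?_⟩
    · split_ifs with hm
      · rfl
      · unfold yy lau
        simp only [List.length_cons]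
        omega
    · split_ifs with hm
      · rfl
      · unfold VV lau
        simp only [List.map_cons, List.sum_cons, Pool.Agent.K1H39.BI.nsq_zero]
        obtain ⟨m', hm'⟩ := Nat.exists_eq_succ_of_ne_zero hm
        rw [hm']
        simp only [Nat.succ_eq_add_one, Nat.add_sub_cancel]
        ring_nf
        omega
    · split_ifs with hm
      · rfl
      · exact ZZ_lau s
  · intro h
    obtain ⟨hmem, hx⟩ := sel_mem h
    have h3 := VV_er R s hmem
    have h2 := sq_lt hx
    refine ⟨(R + 1) ^ 2 - nsq (sel R s), by omega, by omega, Nat.sub_le _ _, ?_, ?_⟩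
    · intro f
      rw [stepF_act ν R s h, Ex_bind]
      refine Ex_congr _ (fun k _ => ?_)
      rw [Ex_congr (h := fun _ => f (yy s - 1 + k)), Ex_const]
      intro s' hs'
      rw [yy_children _ _ _ _ hs', yy_er s hmem]
    · intro f
      rw [stepF_act ν R s h, Ex_bind]
      refine Ex_mono _ (fun k _ => ?_)
      rw [Ex_congr (h := fun s' => f (yy s - 1 + k) * (VV R s' : ℝ≥0∞)), Ex_const_mul]
      · have h5 := VV_children hx k ⟨s.A, s.L.erase (sel R s), s.m⟩
        have h4 : VV R s - ((R + 1) ^ 2 - nsq (sel R s)) =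
            VV R ⟨s.A, s.L.erase (sel R s), s.m⟩ := by omega
        rw [h4]
        gcongr
      · intro s' hs'
        rw [yy_children _ _ _ _ hs', yy_er s hmem]

/-- **GZF.** -/
theorem t_GZF : S_GZF := by
  intro ν σ2 M R s hν
  by_cases hP : Act R s
  · obtain ⟨hmem, hx⟩ := sel_mem hP
    have hind : ind (Act R) s = 1 := by
      unfold ind
      rw [if_pos hP]
    rw [stepF_act ν R s hP, Ex_bind, hind]
    have h1 : (fun k => Ex (children (sel R s) k ⟨s.A, s.L.erase (sel R s), s.m⟩)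
        fun s' => (ZZ s' : ℝ≥0∞)) = fun k : ℕ =>
        (ZZ ⟨s.A, s.L.erase (sel R s), s.m⟩ : ℝ≥0∞) +
          (((nsq (sel R s) : ℝ≥0∞) + 1) * (k : ℝ≥0∞)) := by
      funext k
      rw [Pool.Agent.K1H10.BI.children_ZZ, mul_comm (k : ℝ≥0∞)]
    rw [h1, Ex_add, Ex_const, Ex_const_mul, Pool.Agent.K1H10.BI.Ex_mean hν, mul_one, ← add_assoc]
    congr 1
    have h3 := ZZ_er s hmem
    exact_mod_cast h3
  · have hind : ind (Act R) s = 0 := by
      unfold ind
      rw [if_neg hP]
    rw [hind, add_zero, stepF_not ν R s hP, Ex_pure]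
    split_ifs with hm
    · rfl
    · rw [ZZ_lau]

end Pool.Agent.K1H28.BI
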